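import Pool.Agent.UNI.Fin
import Pool.Agent.UNI.UA

/-!
# MP_79b4ff_gt: knotoid diagrams with uniform twists

`D` is a knotoid diagram, `σ` a state, `m ≥ 4`.  The cut matrix of `σ` over the field with two
elements has a `1` at the pairs of interlaced crossings and at `(c, c)` if `σ` does not respect the
orientation at the crossing `c`.  If no row is zero, and in every class of crossings with equal rows
(a twist region) the number of `A`-smoothings of `σ` minus the number of its `B`-smoothings is an odd
multiple of `m`, then `f_D` is not `1`.  More generally one class may be arbitrary (if its row is a sum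
of other rows), and crossings with zero row and sets of crossings with equal rows whose signed count is
divisible by `2m` may be deleted first.
-/

namespace Pool.Agent.UNI.Kept.UniformTwists

open Pool.Agent.Helper16.Knotoid Pool.Agent.UNI

theorem result {n : ℕ} (D : GaussDiagram n) (σ : Fin n → Bool) (m : ℕ) (hm : 4 ≤ m)
    (Y Z : Finset (Fin n)) (hY : Reached (D.Cut σ) σ m Y) (hZ : Uniform (D.Cut σ) σ m Y Z) :
    D.normalizedBracket ≠ 1 :=
  (knotoidDel thm_UA D σ m hm Y hY).1 Z hZ

end Pool.Agent.UNI.Kept.UniformTwists
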